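import Pool.Agent.Y316.NF.Final

set_option autoImplicit false

open MeasureTheory Pool.Agent.Y316.NF

/-- Every Liouville Heisenberg nilflow is a uniquely ergodic parabolic nilflow with a measurably
non-trivial smooth time change that is neither weakly mixing nor mixing (it has an eigenfunction). -/
theorem Pool.Agent.Results.MP_442888_an.LiouvilleTimeChange.result :
    (∃ θ : ℝ, Liouville θ) ∧
    ∀ θ : ℝ, Liouville θ →
      (∃ t : ℝ, expo (t * 1) (t * θ) (t * 0) ∉ Subgroup.center Heis) ∧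
      ∃ μ : Measure Nil, IsProbabilityMeasure μ ∧ (∀ h : Heis, μ.map (rtrans h) = μ) ∧
        (∀ ν : Measure Nil, IsProbabilityMeasure ν →
          (∀ t : ℝ, ν.map (nilflow 1 θ 0 t) = ν) → ν = μ) ∧
        ∃ α : Nil → ℝ, (∀ p, 0 < α p) ∧ SmoothOnNil α ∧
          ¬ MeasurablyTrivial μ (nilflow 1 θ 0) α ∧
          (∃ ψ : ℝ → Nil → Nil, IsTimeChange (nilflow 1 θ 0) α ψ) ∧
          ∀ ψ : ℝ → Nil → Nil, IsTimeChange (nilflow 1 θ 0) α ψ →
            (∀ t : ℝ, MeasurePreserving (ψ t) (weighted μ α) (weighted μ α)) ∧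
            (∃ F : Nil → ℂ, Measurable F ∧ (∀ p, ‖F p‖ = 1) ∧ ∀ t : ℝ,
              ∀ᵐ p ∂(weighted μ α), F (ψ t p) = Complex.exp (2 * Real.pi * Complex.I * t) * F p) ∧
            ¬ WeaklyMixing (weighted μ α) ψ ∧ ¬ Mixing (weighted μ α) ψ := by
  refine ⟨⟨_, liouville_liouvilleNumber (m := 2) le_rfl⟩, fun θ hθ => ⟨⟨1, ?_⟩, ?_⟩⟩
  · intro h
    rw [Subgroup.mem_center_iff] at h
    have h1 := congrArg Heis.z (h ⟨0, 1, 0⟩)
    simp [expo] at h1
  · obtain ⟨D⟩ := exists_dat hθ
    refine ⟨μ, inferInstance, map_rtrans_μ, fun ν hν h => unique_ergodic hθ.irrational ν h,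
      D.α, D.α_pos, D.smooth_α, D.not_trivial, ⟨D.ψ, D.isTimeChange⟩, fun ψ hψ => ?_⟩
    rw [D.unique hψ]
    refine ⟨D.measurePreserving_ψ, ⟨fun p => fourier 1 (D.F p), ?_, fun p => ?_, fun t => ?_⟩,
      D.not_weaklyMixing, D.not_mixing⟩
    · exact (fourier 1).continuous.measurable.comp D.measurable_F
    · simp only [fourier_apply, Circle.norm_coe]
    · filter_upwards [D.F_ψ t] with p hp
      have h3 : fourier 1 (D.F p + (t : UnitAddCircle)) =
          fourier 1 (t : UnitAddCircle) * fourier 1 (D.F p) := by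
        simp only [fourier_apply, smul_add, AddCircle.toCircle_add, Circle.coe_mul]
        ring
      rw [hp, h3, fourier_coe]
      simp [ee]
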